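import Mathlib

namespace Pool.Agent.Results.MP_a5fc84_co.Cover

open Set Pointwise

variable {F : Type*} [Field F]

/-- Approximate subfields. -/
def ApproxSubfield (X : Set F) : Prop :=
  (0 : F) ∈ X ∧ X = -X ∧ (1 : F) ∈ X ∧ X \ {0} = (X \ {0})⁻¹ ∧
    ∃ E : Set F, E.Finite ∧ X * X + X ⊆ (E * X) ∩ (E + X)

/-- Products of at most `n` elements of `X`. -/
def Prods (n : ℕ) (X : Set F) : Set F :=
  {a | ∃ l : List F, l.length ≤ n ∧ (∀ x ∈ l, x ∈ X) ∧ a = l.prod}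

/-- Sums of at most `n` terms, each a product of at most `n` elements of `X`. -/
def S (n : ℕ) (X : Set F) : Set F :=
  {a | ∃ l : List F, l.length ≤ n ∧ (∀ x ∈ l, x ∈ Prods n X) ∧ a = l.sum}

def Alg (n : ℕ) (X : Set F) : Set F :=
  {c | ∃ a ∈ S n X, ∃ b ∈ S n X, b ≠ 0 ∧ c = a / b}

lemma finite_lists (n : ℕ) {A : Set F} (hA : A.Finite) :
    {l : List F | l.length ≤ n ∧ ∀ x ∈ l, x ∈ A}.Finite := by
  have : Finite A := hA
  refine ((List.finite_length_le A n).image (List.map Subtype.val)).subset ?_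
  rintro l ⟨h1, h2⟩
  refine ⟨l.attachWith (· ∈ A) h2, by simpa using h1, by simp⟩

lemma finite_alg (n : ℕ) {X : Set F} (hX : X.Finite) : (Alg n X).Finite := by
  have h1 : (Prods n X).Finite := by
    refine ((finite_lists n hX).image List.prod).subset ?_
    rintro a ⟨l, h1, h2, rfl⟩
    exact ⟨l, ⟨h1, h2⟩, rfl⟩
  have h2 : (S n X).Finite := by
    refine ((finite_lists n h1).image List.sum).subset ?_
    rintro a ⟨l, h1, h2, rfl⟩
    exact ⟨l, ⟨h1, h2⟩, rfl⟩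
  refine (h2.image2 (· / ·) h2).subset ?_
  rintro c ⟨a, ha, b, hb, -, rfl⟩
  exact ⟨a, ha, b, hb, rfl⟩

def Good (X : Set F) (e : F) : Prop :=
  ∃ T : Set F, T.Finite ∧ ∀ x ∈ X, ∃ t ∈ T, ∃ y ∈ X, e * x = t + y

section
variable {X E : Set F} (h0 : (0 : F) ∈ X) (hneg : ∀ x ∈ X, -x ∈ X) (h1 : (1 : F) ∈ X)
  (hinv : ∀ x ∈ X, x⁻¹ ∈ X) (hE : E.Finite)
  (hm : ∀ a ∈ X, ∀ b ∈ X, ∀ c ∈ X, ∃ e ∈ E, ∃ y ∈ X, a * b + c = e * y)
  (ha : ∀ a ∈ X, ∀ b ∈ X, ∀ c ∈ X, ∃ e ∈ E, ∃ y ∈ X, a * b + c = e + y)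

include h0 hneg h1 hE ha in
lemma ring_good : ∃ R : Subring F, (∀ e, e ∈ R ↔ Good X e) ∧ X ⊆ R := by
  have hX : ∀ e ∈ X, Good X e := by
    intro e he
    refine ⟨E, hE, fun x hx => ?_⟩
    simpa using ha e he x hx 0 h0
  refine ⟨{ carrier := {e | Good X e}
            mul_mem' := ?_, one_mem' := hX 1 h1, add_mem' := ?_, zero_mem' := hX 0 h0,
            neg_mem' := ?_ }, fun e => Iff.rfl, hX⟩
  · rintro a b ⟨T, hT, h⟩ ⟨T', hT', h'⟩
    refine ⟨(fun t => a * t) '' T' + T, (hT'.image _).add hT, fun x hx => ?_⟩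
    obtain ⟨t', ht', y, hy, e1⟩ := h' x hx
    obtain ⟨t, ht, z, hz, e2⟩ := h y hy
    refine ⟨a * t' + t, add_mem_add ⟨t', ht', rfl⟩ ht, z, hz, ?_⟩
    rw [mul_assoc, e1, mul_add, e2, add_assoc]
  · rintro a b ⟨T, hT, h⟩ ⟨T', hT', h'⟩
    refine ⟨T + T' + E, (hT.add hT').add hE, fun x hx => ?_⟩
    obtain ⟨t', ht', y, hy, e1⟩ := h' x hx
    obtain ⟨t, ht, z, hz, e2⟩ := h x hx
    obtain ⟨e, he, w, hw, e3⟩ := ha 1 h1 y hy z hz
    refine ⟨t + t' + e, add_mem_add (add_mem_add ht ht') he, w, hw, ?_⟩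
    rw [add_mul, e1, e2]
    linear_combination e3
  · rintro a ⟨T, hT, h⟩
    refine ⟨T, hT, fun x hx => ?_⟩
    simpa using h (-x) (hneg x hx)

include h0 hneg h1 hinv hE hm in
lemma mult_cover (hinf : X.Infinite) : ∃ E' : Set F, E'.Finite ∧
    ∀ a, Good X a → ∃ e ∈ E', ∃ y ∈ X, a = e * y := by
  refine ⟨E * E⁻¹ * E, (hE.mul hE.inv).mul hE, ?_⟩
  rintro a ⟨T, hT, h⟩
  choose! t ht y hy e using h
  obtain ⟨x1, hx1, x2, hx2, hne, heq⟩ := hinf.exists_ne_map_eq_of_mapsTo (f := t) ht hT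
  obtain ⟨e1, he1, z1, hz1, q1⟩ := hm 1 h1 (y x1) (hy x1 hx1) (-y x2) (hneg _ (hy x2 hx2))
  obtain ⟨e2, he2, z2, hz2, q2⟩ := hm 1 h1 x1 hx1 (-x2) (hneg _ hx2)
  obtain ⟨e3, he3, z3, hz3, q3⟩ := hm z1 hz1 z2⁻¹ (hinv _ hz2) 0 h0
  have hne' : e2 * z2 ≠ 0 := by
    rw [← q2]; intro hh; apply hne; linear_combination hh
  have he2' : e2 ≠ 0 := left_ne_zero_of_mul hne'
  have hz2' : z2 ≠ 0 := right_ne_zero_of_mul hne'
  refine ⟨e1 * e2⁻¹ * e3, mul_mem_mul (mul_mem_mul he1 (by simpa using he2)) he3, z3, hz3, ?_⟩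
  have k : a * (e2 * z2) = e1 * z1 := by
    rw [← q2, ← q1]
    linear_combination e x1 hx1 - e x2 hx2 + heq
  rw [mul_assoc, ← q3]
  field_simp
  linear_combination k

end

lemma main {X : Set F} (hX : ApproxSubfield X) (hinf : X.Infinite) :
    ∃ T : Set F, T.Finite ∧ (Subfield.closure X : Set F) ⊆ T + X := by
  obtain ⟨h0, hn, h1, hi, E, hE, hsub⟩ := hX
  have hneg : ∀ x ∈ X, -x ∈ X := fun x hx => by rw [hn]; simpa using hx
  have hinv : ∀ x ∈ X, x⁻¹ ∈ X := fun x hx => by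
    by_cases e : x = 0
    · simpa [e] using h0
    · have : x ∈ X \ {0} := ⟨hx, e⟩
      rw [hi] at this
      exact (Set.mem_inv.1 this).1
  have hm : ∀ a ∈ X, ∀ b ∈ X, ∀ c ∈ X, ∃ e ∈ E, ∃ y ∈ X, a * b + c = e * y := by
    intro a ha b hb c hc
    obtain ⟨e, he, y, hy, h⟩ := (hsub (add_mem_add (mul_mem_mul ha hb) hc)).1
    exact ⟨e, he, y, hy, h.symm⟩
  have ha : ∀ a ∈ X, ∀ b ∈ X, ∀ c ∈ X, ∃ e ∈ E, ∃ y ∈ X, a * b + c = e + y := by
    intro a ha b hb c hc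
    obtain ⟨e, he, y, hy, h⟩ := (hsub (add_mem_add (mul_mem_mul ha hb) hc)).2
    exact ⟨e, he, y, hy, h.symm⟩
  obtain ⟨R, hR, hXR⟩ := ring_good h0 hneg h1 hE ha
  obtain ⟨E', hE', hc⟩ := mult_cover h0 hneg h1 hinv hE hm hinf
  have hRinv : ∀ a ∈ R, a⁻¹ ∈ R := by
    intro a haR
    by_cases a0 : a = 0
    · simp [a0]
    have := fun i : ℕ => hc (a ^ i) ((hR _).1 (R.pow_mem haR i))
    choose e he y hy q using this
    obtain ⟨i, j, hij, heq⟩ := Set.Finite.exists_lt_map_eq_of_forall_mem he hE'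
    obtain ⟨k, rfl⟩ := Nat.exists_eq_add_of_lt hij
    have hj : e (i + k + 1) * y (i + k + 1) ≠ 0 := by rw [← q]; exact pow_ne_zero _ a0
    have hy0 := right_ne_zero_of_mul hj
    have he0 := left_ne_zero_of_mul hj
    have : a⁻¹ = a ^ k * (y i * (y (i + k + 1))⁻¹) := by
      have q1 := q i
      have q2 := q (i + k + 1)
      rw [heq] at q1
      field_simp
      apply mul_left_cancel₀ he0
      rw [← q2]
      calc a ^ (i + k + 1) = a * a ^ k * a ^ i := by ring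
        _ = _ := by rw [q1]; ring
    rw [this]
    exact R.mul_mem (R.pow_mem haR k) (R.mul_mem (hXR (hy i)) (hXR (hinv _ (hy _))))
  let K : Subfield F := { R with inv_mem' := hRinv }
  have hK : Subfield.closure X ≤ K := Subfield.closure_le.2 hXR
  have hall : ∀ e : F, ∃ T : Set F, T.Finite ∧
      (e ∈ R → ∀ x ∈ X, ∃ t ∈ T, ∃ y ∈ X, e * x = t + y) := by
    intro e
    by_cases h : e ∈ R
    · obtain ⟨T, hT, h'⟩ := (hR e).1 h
      exact ⟨T, hT, fun _ => h'⟩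
    · exact ⟨∅, finite_empty, fun h' => absurd h' h⟩
  choose T hT hT' using hall
  refine ⟨insert 0 (⋃ e ∈ E', T e), (hE'.biUnion fun e _ => hT e).insert 0, fun a haK => ?_⟩
  have haR : a ∈ R := hK haK
  obtain ⟨e, he, y, hy, q⟩ := hc a ((hR a).1 haR)
  by_cases y0 : y = 0
  · exact ⟨0, mem_insert _ _, 0, h0, by simp [q, y0]⟩
  have heR : e ∈ R := by
    have : e = a * y⁻¹ := by rw [q]; field_simp
    rw [this]
    exact R.mul_mem haR (hXR (hinv y hy))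
  obtain ⟨t, ht, z, hz, q'⟩ := hT' e heR y hy
  exact ⟨t, mem_insert_of_mem _ (mem_biUnion he ht), z, hz, by simp [q, q']⟩

theorem result (F : Type*) [Field F] (X : Set F) (hX : ApproxSubfield X) :
    (∀ n : ℕ, 1 ≤ n → ∃ T : Set F, T.Finite ∧ Alg n X ⊆ T + X) ∧
      (X.Infinite → ∃ T : Set F, T.Finite ∧ (Subfield.closure X : Set F) ⊆ T + X) := by
  refine ⟨fun n _ => ?_, main hX⟩
  by_cases hf : X.Finite
  · exact ⟨Alg n X, finite_alg n hf, fun a ha => ⟨a, ha, 0, hX.1, by simp⟩⟩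
  obtain ⟨T, hT, h⟩ := main hX hf
  refine ⟨T, hT, subset_trans ?_ h⟩
  have hS : S n X ⊆ Subfield.closure X := by
    rintro a ⟨l, -, hl, rfl⟩
    refine list_sum_mem fun p hp => ?_
    obtain ⟨l', -, hl', rfl⟩ := hl p hp
    exact list_prod_mem fun x hx => Subfield.subset_closure (hl' x hx)
  rintro c ⟨a, ha, b, hb, -, rfl⟩
  exact (Subfield.closure X).div_mem (hS ha) (hS hb)

end Pool.Agent.Results.MP_a5fc84_co.Cover
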